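import Pool.Agent.TH372.Pet.Props

/-!
No interval below the top element `K₂` of the cycle-continuous order is empty.

If `a` lies strictly below `K₂`, then `a` is not an atom in the sense of MP_03045a_co (there is no
atom, because the Petersen graph is not one), so some graph without cut-edges lies strictly above
`a`. Iterating this gives an infinite ascending chain between `a` and `K₂`.
-/

set_option autoImplicit false

namespace Pool.Agent.Results.MP_219f5b_co.BelowTheTop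

open Pool.Agent.H160R2.CC Pool.Agent.H160R2.CC.MGraph Pool.Agent.TH372.Pet

lemma succ_K2 (G : MGraph) : Succ G K2 := by
  refine succ_iff.2 ⟨fun _ => (), fun φ hφ => ?_⟩
  have h : (φ ∘ fun _ : G.E => (() : K2.E)) = fun _ => 0 := by
    funext e
    exact K2_flow hφ ()
  rw [h]
  exact Flow.zero G

lemma succ_trans {G H K : MGraph} (h1 : Succ G H) (h2 : Succ H K) : Succ G K := by
  obtain ⟨f, hf⟩ := succ_iff.1 h1
  obtain ⟨g, hg⟩ := succ_iff.1 h2
  exact succ_iff.2 ⟨g ∘ f, CC.comp hg hf⟩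

/-- one step up -/
lemma step (a : MGraph) (ha : Nonempty a.E) (hK : ¬ Succ K2 a) :
    ∃ x : MGraph, Nonempty x.E ∧ ¬ Succ K2 x ∧ Succ a x ∧ ¬ Succ x a := by
  have h1 : ¬ IsMinimal a := fun h => hK (h K2 (succ_K2 a)).2
  have h2 := no_atom a
  have h3 : ∃ H : MGraph, Succ a H ∧ ¬ Equivalent H a ∧ ¬ IsMinimal H := by
    by_contra hcon
    push Not at hcon
    exact h2 ⟨h1, hcon⟩
  obtain ⟨H, hH1, hH2, hH3⟩ := h3
  obtain ⟨f, -⟩ := succ_iff.1 hH1
  refine ⟨H, ha.map f, fun hc => hH3 ?_, hH1, fun hc => hH2 ⟨hc, hH1⟩⟩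
  intro K hK'
  exact ⟨hK', succ_trans (succ_K2 K) hc⟩

/-- Let `a` be a graph with at least one edge and with `a < K₂` in the cycle-continuous order. Then
there is an infinite ascending chain `a = x₀ < x₁ < x₂ < ...` of graphs all of which are `< K₂`. In
particular the interval `(a, K₂)` is not empty. -/
theorem result : ∀ a : MGraph, Nonempty a.E → Succ a K2 → ¬ Succ K2 a →
    ∃ x : ℕ → MGraph, x 0 = a ∧ ∀ n, Nonempty (x n).E ∧
      (Succ (x n) (x (n + 1)) ∧ ¬ Succ (x (n + 1)) (x n)) ∧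
      (Succ (x n) K2 ∧ ¬ Succ K2 (x n)) := by
  intro a ha _ hK
  let S : Type 1 := {g : MGraph // Nonempty g.E ∧ ¬ Succ K2 g}
  have hstep : ∀ s : S, ∃ t : S, Succ s.1 t.1 ∧ ¬ Succ t.1 s.1 := by
    rintro ⟨g, hg1, hg2⟩
    obtain ⟨x, hx1, hx2, hx3, hx4⟩ := step g hg1 hg2
    exact ⟨⟨x, hx1, hx2⟩, hx3, hx4⟩
  choose nx hnx using hstep
  let y : ℕ → S := fun n => Nat.rec ⟨a, ha, hK⟩ (fun _ s => nx s) n
  refine ⟨fun n => (y n).1, rfl, fun n => ⟨(y n).2.1, hnx (y n), succ_K2 _, (y n).2.2⟩⟩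

end Pool.Agent.Results.MP_219f5b_co.BelowTheTop
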